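import Pool.Agent.H998.LT.Defs

set_option autoImplicit false

/-!
# Weights and the main identity (MP_4be4c6_an)
-/

open MeasureTheory Real
open scoped FourierTransform ComplexConjugate

namespace Pool.Agent.H177.LT

open Pool.Agent.H998.LT

lemma norm_e (t : ℝ) : ‖e t‖ = 1 := by
  unfold e
  rw [show (2 * (π : ℂ) * (t : ℂ) * Complex.I) = ((2 * π * t : ℝ) : ℂ) * Complex.I by push_cast; ring]
  exact Complex.norm_exp_ofReal_mul_I _

lemma norm_cf (m : ℕ → ℕ) (σ : ℝ) (s : Bool) (l : ℕ) : ‖cf m σ s l‖ = ‖cc m l‖ := by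
  unfold cf
  rw [norm_mul, norm_e, mul_one]

lemma hasSum_geo : HasSum (fun l : ℕ => (1 / 2 : ℝ) ^ (l + 2)) (1 / 2) := by
  have h := (hasSum_geometric_two).mul_left (1 / 4 : ℝ)
  have h2 : (fun l : ℕ => (1 / 2 : ℝ) ^ (l + 2)) = fun l : ℕ => (1 / 4 : ℝ) * (1 / 2) ^ l := by
    funext l; rw [pow_add]; ring
  rw [h2]
  have h3 : (1 / 4 : ℝ) * 2 = 1 / 2 := by norm_num
  rw [h3] at h
  exact h

lemma summable_cf (hθ : S_theta) (m : ℕ → ℕ) (hm : IsSeq m) (σ : ℝ) (s : Bool) :
    Summable fun l => ‖cf m σ s l‖ := by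
  refine Summable.of_nonneg_of_le (fun l => norm_nonneg _) (fun l => ?_) hasSum_geo.summable
  rw [norm_cf]
  exact (hθ m hm).2.2 l

lemma per_pos (s : Bool) : 0 < per s := by
  cases s <;> simp [per]

lemma one_le_per (s : Bool) : 1 ≤ per s := by
  cases s
  · simp [per]
  · have h : (1 : ℝ) ≤ √2 := by
      rw [Real.one_le_sqrt]; norm_num
    exact h

lemma per_le (s : Bool) : per s ≤ 3 / 2 := by
  cases s
  · simp [per]; norm_num
  · have h : √2 ≤ (3 / 2 : ℝ) := by
      rw [Real.sqrt_le_left (by norm_num)]; norm_num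
    exact h

theorem t_wt : S_theta → S_wt := by
  intro hθ m hm σ r
  have hle : |∑' l, (cf m σ (!r.1) l * e (m l / per (!r.1) * hgt (th m) σ r)).re| ≤ 1 / 2 := by
    have hb : ∀ l, |(cf m σ (!r.1) l * e (m l / per (!r.1) * hgt (th m) σ r)).re|
        ≤ (1 / 2 : ℝ) ^ (l + 2) := by
      intro l
      refine (Complex.abs_re_le_norm _).trans ?_
      rw [norm_mul, norm_e, mul_one, norm_cf]
      exact (hθ m hm).2.2 l
    have h1 : Summable fun l : ℕ =>
        ‖(cf m σ (!r.1) l * e (m l / per (!r.1) * hgt (th m) σ r)).re‖ :=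
      Summable.of_nonneg_of_le (fun l => norm_nonneg _) (fun l => by simpa using hb l)
        hasSum_geo.summable
    have h2 := tsum_of_norm_bounded (f := fun l : ℕ =>
        (cf m σ (!r.1) l * e (m l / per (!r.1) * hgt (th m) σ r)).re) hasSum_geo
        (fun l => by simpa using hb l)
    simpa using h2
  rw [abs_le] at hle
  have h1 := one_le_per r.1
  have h2 := per_le r.1
  unfold wt
  constructor <;> nlinarith [hle.1, hle.2]

lemma strictMono_of_isSeq (m : ℕ → ℕ) (hm : IsSeq m) : StrictMono m := by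
  refine strictMono_nat_of_lt_succ fun l => ?_
  have h1 := hm.grow l
  have h2 := hm.pos l
  have h3 : 2 ≤ 2 ^ (l + 4) := by
    calc 2 = 2 ^ 1 := by norm_num
      _ ≤ 2 ^ (l + 4) := Nat.pow_le_pow_right (by norm_num) (by omega)
  nlinarith

/-- terms of the system `s` -/
noncomputable def tm (m : ℕ → ℕ) (σ : ℝ) (G : ℝ → ℂ) (y : ℝ) (s : Bool) (l : ℕ) : ℂ :=
  cf m σ s l * G (m l / per s) * e (m l / per s * y)
    + conj (cf m σ s l) * G (-(m l / per s)) * e (-(m l / per s * y))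

lemma single (hθ : S_theta) (hs : S_single) (m : ℕ → ℕ) (hm : IsSeq m) (σ : ℝ) (g G : ℝ → ℂ)
    (C : ℝ) (hg : Nice g G C) (hB : ∀ ξ ∈ Bad m, G ξ = 0) (y : ℝ) (s : Bool) :
    (Summable fun p : Bool × ℤ => ‖(wt m σ (s, p) : ℂ) * g (y - hgt (th m) σ (s, p))‖) ∧
    ∑' p : Bool × ℤ, (wt m σ (s, p) : ℂ) * g (y - hgt (th m) σ (s, p)) =
      2 * G 0 + ∑' l, tm m σ G y s l - ∑' l, tm m σ G y (!s) l := by
  have h1 : ∀ k : ℤ, k ≠ 0 → (∀ l, k ≠ m l ∧ k ≠ -(m l : ℤ)) → G (k / per s) = 0 := by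
    intro k hk hkl
    refine hB _ (Or.inl ⟨k, hk, hkl, ?_⟩)
    cases s
    · left; simp [per]
    · right; simp [per]
  have h2 : ∀ k : ℤ, k ≠ 0 → ∀ l, G (k / per s + (fun l => (m l : ℝ) / per (!s)) l) = 0 ∧
      G (k / per s - (fun l => (m l : ℝ) / per (!s)) l) = 0 := by
    intro k hk l
    constructor
    · refine hB _ (Or.inr ⟨k, hk, l, ?_⟩)
      cases s
      · left; simp [per]
      · right; right; left; simp [per]
    · refine hB _ (Or.inr ⟨k, hk, l, ?_⟩)
      cases s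
      · right; left; simp [per]
      · right; right; right; simp [per]
  obtain ⟨ha, hb, hc, hd⟩ := hs m hm.pos (strictMono_of_isSeq m hm) g G C hg (per s) (off σ s) (th m)
    (per_pos s) (cf m σ (!s)) (summable_cf hθ m hm σ (!s)) (fun l => (m l : ℝ) / per (!s)) h1 h2
    (fun p => hgt (th m) σ (s, p)) (fun p => rfl) y
  refine ⟨ha, ?_⟩
  exact hd

theorem t_main : S_theta → S_single → S_main := by
  intro hθ hs m hm σ g G C hg hB y
  have hsum : Summable fun r : Row => ‖(wt m σ r : ℂ) * g (y - hgt (th m) σ r)‖ := by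
    rw [summable_prod_of_nonneg (fun _ => norm_nonneg _)]
    refine ⟨fun s => (single hθ hs m hm σ g G C hg hB y s).1, Summable.of_finite⟩
  refine ⟨hsum, ?_⟩
  rw [hsum.of_norm.tsum_prod, tsum_fintype, Fintype.sum_bool,
    (single hθ hs m hm σ g G C hg hB y true).2, (single hθ hs m hm σ g G C hg hB y false).2]
  simp only [Bool.not_true, Bool.not_false]
  ring

end Pool.Agent.H177.LT
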