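import Pool.Agent.H998.LT.Defs2

set_option autoImplicit false

/-!
# Linear algebra of the induction step (MP_4be4c6_an)
-/

namespace Pool.Agent.H177.LT

open Pool.Agent.H998.LT

/-- sum with an inserted coefficient -/
lemma sum_insertNth {d : ℕ} {E : Type} [AddCommGroup E] [Module ℝ E] (i0 : Fin (d + 1)) (a : ℤ)
    (y : Fin d → ℤ) (b : Fin (d + 1) → E) :
    ∑ l, (((i0.insertNth a y : Fin (d + 1) → ℤ) l : ℤ) : ℝ) • b l
      = (a : ℝ) • b i0 + ∑ i, (y i : ℝ) • b (i0.succAbove i) := by
  rw [Fin.sum_univ_succAbove _ i0]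
  simp [Fin.insertNth_apply_same, Fin.insertNth_apply_succAbove]

lemma exists_ne_zero {d : ℕ} (b : Fin (d + 1) → (Fin (d + 1) → ℝ)) (hb : LinearIndependent ℝ b) :
    ∃ i0, b i0 0 ≠ 0 := by
  by_contra hcon
  push Not at hcon
  have h1 : IsUnit (Matrix.of b) := by
    rw [← Matrix.linearIndependent_rows_iff_isUnit]
    exact hb
  have h2 : (Matrix.of b).det = 0 :=
    Matrix.det_eq_zero_of_column_eq_zero 0 (fun i => by simpa using hcon i)
  rw [Matrix.isUnit_iff_isUnit_det, h2] at h1
  exact not_isUnit_zero h1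

/-- Dirichlet: small combinations -/
lemma exists_small (x x0 : ℝ) (h0 : x0 ≠ 0) :
    ∃ k j : ℤ, 0 < k ∧ |(k : ℝ) * x - j * x0| < 1 / 4 := by
  obtain ⟨n, hn⟩ := exists_nat_gt (4 * |x0|)
  have hx0 : 0 < |x0| := abs_pos.2 h0
  have hn0 : 0 < n := by
    have h1 : (0 : ℝ) < n := by linarith
    exact_mod_cast h1
  obtain ⟨j, k, hk, -, hjk⟩ := Real.exists_int_int_abs_mul_sub_le (x / x0) hn0
  refine ⟨k, j, hk, ?_⟩
  have h1 : (k : ℝ) * x - j * x0 = ((k : ℝ) * (x / x0) - j) * x0 := by
    field_simp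
  rw [h1, abs_mul]
  have h2 : (0 : ℝ) < n + 1 := by positivity
  calc |(k : ℝ) * (x / x0) - j| * |x0| ≤ 1 / (n + 1) * |x0| :=
        mul_le_mul_of_nonneg_right hjk (abs_nonneg _)
    _ < 1 / 4 := by
        rw [div_mul_eq_mul_div, one_mul, div_lt_div_iff₀ h2 (by norm_num)]
        linarith

theorem t_witstep : S_witstep := by
  intro d F K hF hK hwit H H2 hH hH2 hH0 hH20 b hb
  by_cases hcase : ∃ z : Fin (d + 1) → ℤ, z ≠ 0 ∧ (∑ i, (z i : ℝ) • b i) 0 ≠ 0 ∧
      |(∑ i, (z i : ℝ) • b i) 0| < 1 / 4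
  · obtain ⟨z, hz, h1, h2⟩ := hcase
    refine ⟨z, hz, ne_of_gt ?_⟩
    have h3 : 0 ≤ pr F H (∑ i, (z i : ℝ) • b i) := mul_nonneg (hF _) (hH _)
    have h4 : 0 < pr K H2 (∑ i, (z i : ℝ) • b i) := mul_pos (hK _) (hH2 _ h1 h2)
    linarith
  · have hzero : ∀ z : Fin (d + 1) → ℤ, |(∑ i, (z i : ℝ) • b i) 0| < 1 / 4 →
        (∑ i, (z i : ℝ) • b i) 0 = 0 := by
      intro z hz
      by_contra hne
      refine hcase ⟨z, ?_, hne, hz⟩
      rintro rfl
      exact hne (by simp)
    obtain ⟨i0, hi0⟩ := exists_ne_zero b hb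
    choose k j hk hkj using fun i : Fin d => exists_small (b (i0.succAbove i) 0) (b i0 0) hi0
    have hv0 : ∀ i : Fin d, (k i : ℝ) * b (i0.succAbove i) 0 - j i * b i0 0 = 0 := by
      intro i
      have h1 : (∑ l, (((i0.insertNth (-j i) (Pi.single i (k i)) : Fin (d + 1) → ℤ) l : ℤ) : ℝ)
          • b l) 0 = (k i : ℝ) * b (i0.succAbove i) 0 - j i * b i0 0 := by
        rw [sum_insertNth]
        have h2 : ∑ i2, ((Pi.single i (k i) : Fin d → ℤ) i2 : ℝ) • b (i0.succAbove i2)
            = (k i : ℝ) • b (i0.succAbove i) := by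
          rw [Finset.sum_eq_single i]
          · simp
          · intro i2 _ hne
            simp [Pi.single_eq_of_ne hne]
          · intro hni
            exact absurd (Finset.mem_univ i) hni
        rw [h2]
        simp only [Pi.add_apply, Pi.smul_apply, smul_eq_mul, Int.cast_neg]
        ring
      rw [← h1]
      refine hzero _ ?_
      rw [h1]
      exact hkj i
    -- the vectors
    let v : Fin d → (Fin (d + 1) → ℝ) := fun i =>
      (k i : ℝ) • b (i0.succAbove i) - (j i : ℝ) • b i0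
    have hv00 : ∀ i, v i 0 = 0 := hv0
    have hcomb : ∀ c : Fin d → ℝ, ∑ i, c i • v i
        = (-∑ i, c i * j i) • b i0 + ∑ i, (c i * k i) • b (i0.succAbove i) := by
      intro c
      simp only [v, smul_sub, smul_smul, Finset.sum_sub_distrib, neg_smul, Finset.sum_smul]
      abel
    have htail : ∀ c : Fin d → ℝ, Fin.tail (∑ i, c i • v i) = ∑ i, c i • Fin.tail (v i) := by
      intro c
      funext l
      simp [Fin.tail, Finset.sum_apply]
    have hzer : ∀ c : Fin d → ℝ, (∑ i, c i • v i) 0 = 0 := by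
      intro c
      simp only [Finset.sum_apply, Pi.smul_apply, hv00, smul_zero, Finset.sum_const_zero]
    have hind : LinearIndependent ℝ fun i : Fin d => Fin.tail (v i) := by
      rw [Fintype.linearIndependent_iff]
      intro c hc i
      rw [← htail c] at hc
      have h1 : ∑ i, c i • v i = 0 := by
        funext l
        refine Fin.cases ?_ (fun l => ?_) l
        · exact hzer c
        · exact congrFun hc l
      rw [hcomb c] at h1
      have h2 : ∑ l, ((i0.insertNth (-∑ i, c i * j i) (fun i => c i * k i) :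
          Fin (d + 1) → ℝ) l) • b l = 0 := by
        rw [Fin.sum_univ_succAbove _ i0]
        simpa [Fin.insertNth_apply_same, Fin.insertNth_apply_succAbove] using h1
      have h3 := (Fintype.linearIndependent_iff.1 hb) _ h2 (i0.succAbove i)
      rw [Fin.insertNth_apply_succAbove] at h3
      have h4 : (k i : ℝ) ≠ 0 := by
        have := hk i
        exact_mod_cast this.ne'
      exact (mul_eq_zero.1 h3).resolve_right h4
    obtain ⟨y, hy, hFy⟩ := hwit _ hind
    refine ⟨i0.insertNth (-∑ i, y i * j i) (fun i => y i * k i), ?_, ?_⟩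
    · intro h0
      refine hy (funext fun i => ?_)
      have h1 := congrFun h0 (i0.succAbove i)
      rw [Fin.insertNth_apply_succAbove] at h1
      exact (mul_eq_zero.1 h1).resolve_right (hk i).ne'
    · have hx : ∑ l, (((i0.insertNth (-∑ i, y i * j i) (fun i => y i * k i) :
          Fin (d + 1) → ℤ) l : ℤ) : ℝ) • b l = ∑ i, (y i : ℝ) • v i := by
        rw [sum_insertNth, hcomb]
        push_cast
        rfl
      rw [hx]
      have h1 : pr K H2 (∑ i, (y i : ℝ) • v i) = 0 := by
        unfold pr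
        rw [hzer, hH20, mul_zero]
      have h2 : pr F H (∑ i, (y i : ℝ) • v i) ≠ 0 := by
        unfold pr
        rw [hzer, htail]
        exact mul_ne_zero hFy hH0
      rw [h1, add_zero]
      exact h2

end Pool.Agent.H177.LT
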